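import Pool.Agent.H82.EUC.Stmts4

set_option autoImplicit false

namespace Pool.EUC

theorem ge2_cross {n : ℕ} (I : Inst n) {m w : Fin n} {r s : ℝ} {p : ℝ × ℝ}
    (h1 : p ∈ hseg I m r) (h2 : p ∈ vseg I w s) : I.dM m w ≤ r ∧ I.dW w m ≤ s := by
  obtain ⟨⟨a1, a2⟩, a3⟩ := h1
  obtain ⟨b3, b1, b2⟩ := h2
  have a3' : p.2 = I.posM m := a3
  have b3' : p.1 = I.posW w := b3
  rw [b3'] at a1 a2
  rw [a3'] at b1 b2
  unfold Inst.dM Inst.dW
  constructor
  · rw [abs_le]
    constructor <;> linarith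
  · rw [abs_le]
    constructor <;> linarith

theorem ge2_thm : GE2_S := by
  intro n I hM hW μ ν μ' ν' h1 h2 h3 h4
  rw [Set.disjoint_left]
  intro p hp hp'
  rcases hp with ⟨m, hm, hpm⟩ | ⟨w, hw, hpw⟩
  · rcases hp' with ⟨m', hm', hpm'⟩ | ⟨w', hw', hpw'⟩
    · have e1 : p.2 = I.posM m := hpm.2
      have e2 : p.2 = I.posM m' := hpm'.2
      have e : m = m' := by
        apply hW m
        unfold Inst.dW
        rw [← e1, ← e2]
      subst e
      exact h1 m hm hm'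
    · obtain ⟨c1, c2⟩ := ge2_cross I hpm hpw'
      exact h3 m w' hm hw' c1 c2
  · rcases hp' with ⟨m', hm', hpm'⟩ | ⟨w', hw', hpw'⟩
    · obtain ⟨c1, c2⟩ := ge2_cross I hpm' hpw
      exact h4 m' w hm' hw c1 c2
    · have e1 : p.1 = I.posW w := hpw.1
      have e2 : p.1 = I.posW w' := hpw'.1
      have e : w = w' := by
        apply hM w
        unfold Inst.dM
        rw [← e1, ← e2]
      subst e
      exact h2 w hw hw'

end Pool.EUC
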