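import Pool.Agent.H82.EUC.Stmts6

set_option autoImplicit false

namespace Pool.EUC

theorem gs2_snd {n : ℕ} (I : SP n) {m : Fin n} {r : ℝ} {p : ℝ × ℝ} (h : p ∈ hsegS I m r) :
    p.2 = I.posM m := by
  have h1 : {p : ℝ × ℝ | ∃ w, I.dM m w ≤ r ∧ p = (I.posW w, I.posM m)} ⊆
      (LinearMap.snd ℝ ℝ ℝ) ⁻¹' {I.posM m} := by
    rintro q ⟨w, -, rfl⟩
    rfl
  exact convexHull_min h1 ((convex_singleton (I.posM m)).linear_preimage _) h

theorem gs2_fst {n : ℕ} (I : SP n) {w : Fin n} {r : ℝ} {p : ℝ × ℝ} (h : p ∈ vsegS I w r) :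
    p.1 = I.posW w := by
  have h1 : {p : ℝ × ℝ | ∃ m, I.dW w m ≤ r ∧ p = (I.posW w, I.posM m)} ⊆
      (LinearMap.fst ℝ ℝ ℝ) ⁻¹' {I.posW w} := by
    rintro q ⟨m, -, rfl⟩
    rfl
  exact convexHull_min h1 ((convex_singleton (I.posW w)).linear_preimage _) h

theorem gs2_h {n : ℕ} (I : SP n) (hI : I.Ok) {m b : Fin n} {r : ℝ} {p : ℝ × ℝ}
    (h : p ∈ hsegS I m r) (hb : p.1 = I.posW b) : I.dM m b ≤ r := by
  have hlo : ∃ a, I.dM m a ≤ r ∧ I.posW a ≤ p.1 := by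
    by_contra hc
    push Not at hc
    have h1 : {p : ℝ × ℝ | ∃ w, I.dM m w ≤ r ∧ p = (I.posW w, I.posM m)} ⊆
        (LinearMap.fst ℝ ℝ ℝ) ⁻¹' Set.Ioi p.1 := by
      rintro q ⟨w, hw, rfl⟩
      exact hc w hw
    have h2 := convexHull_min h1 ((convex_Ioi p.1).linear_preimage _) h
    exact absurd h2 (lt_irrefl p.1)
  have hhi : ∃ c, I.dM m c ≤ r ∧ p.1 ≤ I.posW c := by
    by_contra hc
    push Not at hc
    have h1 : {p : ℝ × ℝ | ∃ w, I.dM m w ≤ r ∧ p = (I.posW w, I.posM m)} ⊆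
        (LinearMap.fst ℝ ℝ ℝ) ⁻¹' Set.Iio p.1 := by
      rintro q ⟨w, hw, rfl⟩
      exact hc w hw
    have h2 := convexHull_min h1 ((convex_Iio p.1).linear_preimage _) h
    exact absurd h2 (lt_irrefl p.1)
  obtain ⟨a, ha, hpa⟩ := hlo
  obtain ⟨c, hc, hpc⟩ := hhi
  rw [hb] at hpa hpc
  rcases hpa.eq_or_lt with h1 | h1
  · rw [← hI.jW h1]
    exact ha
  rcases hpc.eq_or_lt with h2 | h2
  · rw [hI.jW h2]
    exact hc
  exact (hI.qM m a b c h1 h2).trans (max_le ha hc)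

theorem gs2_v {n : ℕ} (I : SP n) (hI : I.Ok) {w b : Fin n} {r : ℝ} {p : ℝ × ℝ}
    (h : p ∈ vsegS I w r) (hb : p.2 = I.posM b) : I.dW w b ≤ r := by
  have hlo : ∃ a, I.dW w a ≤ r ∧ I.posM a ≤ p.2 := by
    by_contra hc
    push Not at hc
    have h1 : {p : ℝ × ℝ | ∃ m, I.dW w m ≤ r ∧ p = (I.posW w, I.posM m)} ⊆
        (LinearMap.snd ℝ ℝ ℝ) ⁻¹' Set.Ioi p.2 := by
      rintro q ⟨m, hm, rfl⟩
      exact hc m hm
    have h2 := convexHull_min h1 ((convex_Ioi p.2).linear_preimage _) h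
    exact absurd h2 (lt_irrefl p.2)
  have hhi : ∃ c, I.dW w c ≤ r ∧ p.2 ≤ I.posM c := by
    by_contra hc
    push Not at hc
    have h1 : {p : ℝ × ℝ | ∃ m, I.dW w m ≤ r ∧ p = (I.posW w, I.posM m)} ⊆
        (LinearMap.snd ℝ ℝ ℝ) ⁻¹' Set.Iio p.2 := by
      rintro q ⟨m, hm, rfl⟩
      exact hc m hm
    have h2 := convexHull_min h1 ((convex_Iio p.2).linear_preimage _) h
    exact absurd h2 (lt_irrefl p.2)
  obtain ⟨a, ha, hpa⟩ := hlo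
  obtain ⟨c, hc, hpc⟩ := hhi
  rw [hb] at hpa hpc
  rcases hpa.eq_or_lt with h1 | h1
  · rw [← hI.jM h1]
    exact ha
  rcases hpc.eq_or_lt with h2 | h2
  · rw [hI.jM h2]
    exact hc
  exact (hI.qW w a b c h1 h2).trans (max_le ha hc)

theorem gs2_cross {n : ℕ} (I : SP n) (hI : I.Ok) {m w : Fin n} {r s : ℝ} {p : ℝ × ℝ}
    (h1 : p ∈ hsegS I m r) (h2 : p ∈ vsegS I w s) : I.dM m w ≤ r ∧ I.dW w m ≤ s :=
  ⟨gs2_h I hI h1 (gs2_fst I h2), gs2_v I hI h2 (gs2_snd I h1)⟩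

theorem gs2_thm : GS2_S := by
  intro n I hI μ ν μ' ν' h1 h2 h3 h4
  rw [Set.disjoint_left]
  intro p hp hp'
  rcases hp with ⟨m, hm, hpm⟩ | ⟨w, hw, hpw⟩
  · rcases hp' with ⟨m', hm', hpm'⟩ | ⟨w', hw', hpw'⟩
    · have e1 : p.2 = I.posM m := gs2_snd I hpm
      have e2 : p.2 = I.posM m' := gs2_snd I hpm'
      have e : m = m' := hI.jM (e1.symm.trans e2)
      subst e
      exact h1 m hm hm'
    · obtain ⟨c1, c2⟩ := gs2_cross I hI hpm hpw'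
      exact h3 m w' hm hw' c1 c2
  · rcases hp' with ⟨m', hm', hpm'⟩ | ⟨w', hw', hpw'⟩
    · obtain ⟨c1, c2⟩ := gs2_cross I hI hpm' hpw
      exact h4 m' w hm' hw c1 c2
    · have e1 : p.1 = I.posW w := gs2_fst I hpw
      have e2 : p.1 = I.posW w' := gs2_fst I hpw'
      have e : w = w' := hI.jW (e1.symm.trans e2)
      subst e
      exact h2 w hw hw'

end Pool.EUC
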