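import Pool.Agent.H82.EUC.Stmts5

set_option autoImplicit false

namespace Pool.EUC

theorem rk0_thm : RK0_S := by
  intro K α _ _ f _
  refine ⟨fun a => {c | f c < f a}.ncard, fun a b => ⟨fun h => ?_, fun h => ?_⟩, fun a => ?_⟩
  · refine Set.ncard_lt_ncard ?_ (Set.toFinite _)
    refine (Set.ssubset_iff_of_subset ?_).2 ⟨a, h, fun h' => lt_irrefl _ h'⟩
    intro c hc
    exact lt_trans hc h
  · by_contra hn
    have hle : f b ≤ f a := not_lt.1 hn
    have hs : {c | f c < f b} ⊆ {c | f c < f a} := fun c hc => lt_of_lt_of_le hc hle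
    exact absurd h (not_lt.2 (Set.ncard_le_ncard hs (Set.toFinite _)))
  · have h1 : {c | f c < f a}.ncard < (Set.univ : Set K).ncard := by
      refine Set.ncard_lt_ncard ?_ (Set.toFinite _)
      refine (Set.ssubset_iff_of_subset (Set.subset_univ _)).2
        ⟨a, Set.mem_univ _, fun h' => lt_irrefl _ h'⟩
    rwa [Set.ncard_univ] at h1

end Pool.EUC
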